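import Mathlib

/-!
# 3-neighbour bootstrap percolation on the strong product of two paths
-/

namespace K9h78.King

/-- The strong product `P_m ⊠ P_n` of two paths (the `m × n` king's graph): two distinct cells are
adjacent when both coordinates differ by at most one. -/
def kingGrid (m n : ℕ) : SimpleGraph (Fin m × Fin n) where
  Adj p q := p ≠ q ∧ |((p.1 : ℕ) : ℤ) - ((q.1 : ℕ) : ℤ)| ≤ 1 ∧
    |((p.2 : ℕ) : ℤ) - ((q.2 : ℕ) : ℤ)| ≤ 1
  symm := ⟨by
    intro p q h
    refine ⟨h.1.symm, ?_, ?_⟩
    · rw [abs_sub_comm]; exact h.2.1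
    · rw [abs_sub_comm]; exact h.2.2⟩
  loopless := ⟨fun p h => h.1 rfl⟩

variable {V : Type*}

/-- The infected set after `t` rounds of `r`-neighbour bootstrap percolation started at `A₀`:
`A_{t+1} = A_t ∪ {v : v has at least r neighbours in A_t}`. -/
def infected (G : SimpleGraph V) (r : ℕ) (A₀ : Set V) : ℕ → Set V
  | 0 => A₀
  | t + 1 => infected G r A₀ t ∪ {v | r ≤ {u | G.Adj v u ∧ u ∈ infected G r A₀ t}.ncard}

/-- `A₀` fully infects `G` in the `r`-neighbour process. -/
def FullyInfects (G : SimpleGraph V) (r : ℕ) (A₀ : Set V) : Prop :=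
  (⋃ t, infected G r A₀ t) = Set.univ

/-- The closed form for `m_3(m,n)`. -/
def m3formula (m n : ℕ) : ℕ :=
  if min m n = 1 then max m n else if min m n = 2 then max m n / 2 + 2 else 3

end K9h78.King
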