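import Pool.Agent.K9h78.King.Defs

namespace K9h78.King

open Finset

variable {V : Type*}

theorem infected_mono (G : SimpleGraph V) (r : ℕ) (A₀ : Set V) {s t : ℕ} (h : s ≤ t) :
    infected G r A₀ s ⊆ infected G r A₀ t := by
  induction h with
  | refl => exact subset_rfl
  | step _ ih => exact ih.trans (Set.subset_union_left)

/-- the final infected set -/
def fin (G : SimpleGraph V) (r : ℕ) (A₀ : Set V) : Set V := ⋃ t, infected G r A₀ t

theorem seed_mem_fin (G : SimpleGraph V) (r : ℕ) (A₀ : Set V) {v : V} (h : v ∈ A₀) :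
    v ∈ fin G r A₀ := Set.mem_iUnion.2 ⟨0, h⟩

theorem fin_rule [Finite V] (G : SimpleGraph V) (A₀ : Set V) {v a b c : V}
    (ha : G.Adj v a) (hb : G.Adj v b) (hc : G.Adj v c)
    (hab : a ≠ b) (hac : a ≠ c) (hbc : b ≠ c)
    (Ha : a ∈ fin G 3 A₀) (Hb : b ∈ fin G 3 A₀) (Hc : c ∈ fin G 3 A₀) :
    v ∈ fin G 3 A₀ := by
  obtain ⟨ta, hta⟩ := Set.mem_iUnion.1 Ha
  obtain ⟨tb, htb⟩ := Set.mem_iUnion.1 Hb
  obtain ⟨tc, htc⟩ := Set.mem_iUnion.1 Hc
  set T := max ta (max tb tc) with hT
  have h1 := infected_mono G 3 A₀ (show ta ≤ T by omega) hta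
  have h2 := infected_mono G 3 A₀ (show tb ≤ T by omega) htb
  have h3 := infected_mono G 3 A₀ (show tc ≤ T by omega) htc
  refine Set.mem_iUnion.2 ⟨T + 1, ?_⟩
  refine Or.inr ?_
  show 3 ≤ _
  have h4 : ({a, b, c} : Set V).ncard = 3 := by
    rw [Set.ncard_eq_three]
    exact ⟨a, b, c, hab, hac, hbc, rfl⟩
  have h5 : ({a, b, c} : Set V).ncard ≤ {u | G.Adj v u ∧ u ∈ infected G 3 A₀ T}.ncard := by
    apply Set.ncard_le_ncard _ (Set.toFinite _)
    rintro u (rfl | rfl | rfl)
    · exact ⟨ha, h1⟩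
    · exact ⟨hb, h2⟩
    · exact ⟨hc, h3⟩
  omega

theorem blocked [Finite V] (G : SimpleGraph V) (A₀ S : Set V) (hd : ∀ v ∈ S, v ∉ A₀)
    (hS : ∀ v ∈ S, {u | G.Adj v u ∧ u ∉ S}.ncard ≤ 2)
    (h : FullyInfects G 3 A₀) : S = ∅ := by
  have key : ∀ t, ∀ v ∈ S, v ∉ infected G 3 A₀ t := by
    intro t
    induction t with
    | zero => exact hd
    | succ t ih =>
      intro v hv hin
      rcases hin with hin | hin
      · exact ih v hv hin
      · have h1 : 3 ≤ {u | G.Adj v u ∧ u ∈ infected G 3 A₀ t}.ncard := hin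
        have h2 : {u | G.Adj v u ∧ u ∈ infected G 3 A₀ t}.ncard ≤
            {u | G.Adj v u ∧ u ∉ S}.ncard := by
          apply Set.ncard_le_ncard _ (Set.toFinite _)
          rintro u ⟨hu1, hu2⟩
          exact ⟨hu1, fun hu => ih u hu hu2⟩
        have h3 := hS v hv
        omega
  rw [Set.eq_empty_iff_forall_notMem]
  intro v hv
  have : v ∈ (⋃ t, infected G 3 A₀ t) := by rw [h]; trivial
  obtain ⟨t, ht⟩ := Set.mem_iUnion.1 this
  exact key t v hv ht

theorem exists_trigger [Finite V] (G : SimpleGraph V) (A₀ : Set V) (hne : A₀ ≠ Set.univ)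
    (h : FullyInfects G 3 A₀) : ∃ v, v ∉ A₀ ∧ 3 ≤ {u | G.Adj v u ∧ u ∈ A₀}.ncard := by
  by_contra hcon
  push Not at hcon
  have := blocked G A₀ A₀ᶜ (fun v hv => hv) (fun v hv => by
    have := hcon v hv
    have h2 : {u | G.Adj v u ∧ u ∉ A₀ᶜ} = {u | G.Adj v u ∧ u ∈ A₀} := by
      ext u; simp
    rw [h2]; omega) h
  exact hne (Set.compl_empty_iff.1 this)

/-! ### transport along isomorphisms -/

theorem infected_iso {W : Type*} {G : SimpleGraph V} {H : SimpleGraph W} (e : G ≃g H) (r : ℕ)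
    (A₀ : Set V) (t : ℕ) : infected H r (e '' A₀) t = e '' infected G r A₀ t := by
  induction t with
  | zero => rfl
  | succ t ih =>
    show infected H r (e '' A₀) t ∪ _ = e '' (infected G r A₀ t ∪ _)
    rw [Set.image_union, ih]
    congr 1
    ext w
    obtain ⟨v, rfl⟩ := e.surjective w
    have h1 : {u | H.Adj (e v) u ∧ u ∈ e '' infected G r A₀ t} =
        e '' {u | G.Adj v u ∧ u ∈ infected G r A₀ t} := by
      ext u
      obtain ⟨x, rfl⟩ := e.surjective u
      constructor
      · rintro ⟨h1, y, hy, hyx⟩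
        have : y = x := e.injective hyx
        subst this
        exact ⟨y, ⟨e.map_adj_iff.1 h1, hy⟩, rfl⟩
      · rintro ⟨y, ⟨h1, h2⟩, hyx⟩
        have : y = x := e.injective hyx
        subst this
        exact ⟨e.map_adj_iff.2 h1, y, h2, rfl⟩
    constructor
    · intro h
      refine ⟨v, ?_, rfl⟩
      show r ≤ _
      have h' : r ≤ {u | H.Adj (e v) u ∧ u ∈ e '' infected G r A₀ t}.ncard := h
      rwa [h1, Set.ncard_image_of_injective _ e.injective] at h'
    · rintro ⟨x, hx, hxv⟩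
      have : x = v := e.injective hxv
      subst this
      show r ≤ {u | H.Adj (e x) u ∧ u ∈ e '' infected G r A₀ t}.ncard
      rw [h1, Set.ncard_image_of_injective _ e.injective]
      exact hx

theorem fully_iso {W : Type*} {G : SimpleGraph V} {H : SimpleGraph W} (e : G ≃g H) (r : ℕ)
    (A₀ : Set V) (h : FullyInfects G r A₀) : FullyInfects H r (e '' A₀) := by
  show (⋃ t, infected H r (e '' A₀) t) = Set.univ
  simp_rw [infected_iso]
  rw [← Set.image_iUnion]
  have h' : (⋃ t, infected G r A₀ t) = Set.univ := h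
  rw [h', Set.image_univ, e.surjective.range_eq]

/-- swapping the coordinates -/
def swapIso (m n : ℕ) : kingGrid m n ≃g kingGrid n m where
  toEquiv := Equiv.prodComm _ _
  map_rel_iff' := by
    intro p q
    show (_ ∧ _ ∧ _) ↔ (_ ∧ _ ∧ _)
    constructor
    · rintro ⟨h1, h2, h3⟩
      exact ⟨fun h => h1 (by rw [h]), h3, h2⟩
    · rintro ⟨h1, h2, h3⟩
      refine ⟨fun h => h1 ?_, h3, h2⟩
      exact (Equiv.prodComm (Fin m) (Fin n)).injective h

/-- the set of sizes of percolating sets -/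
def sizes (m n : ℕ) : Set ℕ :=
  {k | ∃ A : Finset (Fin m × Fin n), A.card = k ∧ FullyInfects (kingGrid m n) 3 (A : Set _)}

theorem sizes_swap_sub (m n : ℕ) : sizes m n ⊆ sizes n m := by
  rintro k ⟨A, hA, hF⟩
  refine ⟨A.map (Equiv.prodComm (Fin m) (Fin n)).toEmbedding, by rw [Finset.card_map, hA], ?_⟩
  have := fully_iso (swapIso m n) 3 _ hF
  convert this using 1
  rw [Finset.coe_map]
  rfl

theorem sizes_swap (m n : ℕ) : sizes m n = sizes n m :=
  Set.Subset.antisymm (sizes_swap_sub m n) (sizes_swap_sub n m)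

/-! ### growth rule in coordinates -/

section grid
variable {m n : ℕ}

/-- cell `(i,j)` (natural coordinates) is finally infected -/
def P (A₀ : Set (Fin m × Fin n)) (i j : ℕ) : Prop :=
  ∃ (hi : i < m) (hj : j < n), ((⟨i, hi⟩, ⟨j, hj⟩) : Fin m × Fin n) ∈ fin (kingGrid m n) 3 A₀

theorem rule (A₀ : Set (Fin m × Fin n)) {i j i1 j1 i2 j2 i3 j3 : ℕ} (hi : i < m) (hj : j < n)
    (h1 : P A₀ i1 j1) (h2 : P A₀ i2 j2) (h3 : P A₀ i3 j3)
    (a1 : i ≤ i1 + 1 ∧ i1 ≤ i + 1 ∧ j ≤ j1 + 1 ∧ j1 ≤ j + 1 ∧ (i ≠ i1 ∨ j ≠ j1))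
    (a2 : i ≤ i2 + 1 ∧ i2 ≤ i + 1 ∧ j ≤ j2 + 1 ∧ j2 ≤ j + 1 ∧ (i ≠ i2 ∨ j ≠ j2))
    (a3 : i ≤ i3 + 1 ∧ i3 ≤ i + 1 ∧ j ≤ j3 + 1 ∧ j3 ≤ j + 1 ∧ (i ≠ i3 ∨ j ≠ j3))
    (d12 : i1 ≠ i2 ∨ j1 ≠ j2) (d13 : i1 ≠ i3 ∨ j1 ≠ j3) (d23 : i2 ≠ i3 ∨ j2 ≠ j3) :
    P A₀ i j := by
  obtain ⟨hi1, hj1, H1⟩ := h1
  obtain ⟨hi2, hj2, H2⟩ := h2
  obtain ⟨hi3, hj3, H3⟩ := h3
  have adj : ∀ {x y : ℕ} (hx : x < m) (hy : y < n),
      (i ≤ x + 1 ∧ x ≤ i + 1 ∧ j ≤ y + 1 ∧ y ≤ j + 1 ∧ (i ≠ x ∨ j ≠ y)) →
      (kingGrid m n).Adj (⟨i, hi⟩, ⟨j, hj⟩) (⟨x, hx⟩, ⟨y, hy⟩) := by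
    intro x y hx hy h
    refine ⟨?_, ?_, ?_⟩
    · intro he
      rw [Prod.mk.injEq, Fin.mk.injEq, Fin.mk.injEq] at he
      omega
    · show |((i : ℕ) : ℤ) - ((x : ℕ) : ℤ)| ≤ 1
      rw [abs_le]; omega
    · show |((j : ℕ) : ℤ) - ((y : ℕ) : ℤ)| ≤ 1
      rw [abs_le]; omega
  have dist : ∀ {x y x' y' : ℕ} (hx : x < m) (hy : y < n) (hx' : x' < m) (hy' : y' < n),
      (x ≠ x' ∨ y ≠ y') →
      ((⟨x, hx⟩, ⟨y, hy⟩) : Fin m × Fin n) ≠ (⟨x', hx'⟩, ⟨y', hy'⟩) := by
    intro x y x' y' hx hy hx' hy' h he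
    rw [Prod.mk.injEq, Fin.mk.injEq, Fin.mk.injEq] at he
    omega
  exact ⟨hi, hj, fin_rule _ _ (adj hi1 hj1 a1) (adj hi2 hj2 a2) (adj hi3 hj3 a3)
    (dist _ _ _ _ d12) (dist _ _ _ _ d13) (dist _ _ _ _ d23) H1 H2 H3⟩

theorem full_of_P (A₀ : Set (Fin m × Fin n)) (h : ∀ i < m, ∀ j < n, P A₀ i j) :
    FullyInfects (kingGrid m n) 3 A₀ := by
  show fin (kingGrid m n) 3 A₀ = Set.univ
  rw [Set.eq_univ_iff_forall]
  rintro ⟨⟨i, hi⟩, ⟨j, hj⟩⟩
  obtain ⟨_, _, h⟩ := h i hi j hj
  exact h

end grid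

/-! ### both sides at least three -/

theorem upper_big (m n : ℕ) (hm : 3 ≤ m) (hn : 3 ≤ n) :
    ∃ A : Finset (Fin m × Fin n), A.card ≤ 3 ∧ FullyInfects (kingGrid m n) 3 (A : Set (Fin m × Fin n)) := by
  classical
  refine ⟨{(⟨0, by omega⟩, ⟨1, by omega⟩), (⟨1, by omega⟩, ⟨1, by omega⟩),
    (⟨2, by omega⟩, ⟨1, by omega⟩)}, Finset.card_le_three, ?_⟩
  set A : Finset (Fin m × Fin n) := {(⟨0, by omega⟩, ⟨1, by omega⟩),
    (⟨1, by omega⟩, ⟨1, by omega⟩), (⟨2, by omega⟩, ⟨1, by omega⟩)} with hA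
  have h0m : 0 < m := by omega
  have h1m : 1 < m := by omega
  have h2m : 2 < m := by omega
  have h1n : 1 < n := by omega
  have s0 : P (A : Set (Fin m × Fin n)) 0 1 := ⟨h0m, h1n, seed_mem_fin _ _ _ (by simp [hA])⟩
  have s1 : P (A : Set (Fin m × Fin n)) 1 1 := ⟨h1m, h1n, seed_mem_fin _ _ _ (by simp [hA])⟩
  have s2 : P (A : Set (Fin m × Fin n)) 2 1 := ⟨h2m, h1n, seed_mem_fin _ _ _ (by simp [hA])⟩
  have cols : ∀ j, 1 ≤ j → j < n → P (A : Set (Fin m × Fin n)) 0 j ∧
      P (A : Set (Fin m × Fin n)) 1 j ∧ P (A : Set (Fin m × Fin n)) 2 j := by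
    intro j hj
    induction j, hj using Nat.le_induction with
    | base => intro _; exact ⟨s0, s1, s2⟩
    | succ j hj ih =>
      intro hjn
      obtain ⟨a0, a1, a2⟩ := ih (by omega)
      have b1 : P (A : Set (Fin m × Fin n)) 1 (j + 1) := rule _ (by omega) (by omega) a0 a1 a2
        (by omega) (by omega) (by omega) (by omega) (by omega) (by omega)
      have b0 : P (A : Set (Fin m × Fin n)) 0 (j + 1) := rule _ (by omega) (by omega) a0 a1 b1
        (by omega) (by omega) (by omega) (by omega) (by omega) (by omega)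
      have b2 : P (A : Set (Fin m × Fin n)) 2 (j + 1) := rule _ (by omega) (by omega) a2 a1 b1
        (by omega) (by omega) (by omega) (by omega) (by omega) (by omega)
      exact ⟨b0, b1, b2⟩
  have c1 : P (A : Set (Fin m × Fin n)) 1 0 := rule _ (by omega) (by omega) s0 s1 s2
    (by omega) (by omega) (by omega) (by omega) (by omega) (by omega)
  have c0 : P (A : Set (Fin m × Fin n)) 0 0 := rule _ (by omega) (by omega) s0 s1 c1
    (by omega) (by omega) (by omega) (by omega) (by omega) (by omega)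
  have row0 : ∀ j < n, P (A : Set (Fin m × Fin n)) 0 j := by
    intro j hj
    rcases Nat.eq_zero_or_pos j with rfl | hpos
    · exact c0
    · exact (cols j hpos hj).1
  have rows : ∀ i, i < m → ∀ j < n, P (A : Set (Fin m × Fin n)) i j := by
    intro i
    induction i with
    | zero => intro _; exact row0
    | succ i ih =>
      intro hi
      have hr := ih (by omega)
      have mid : ∀ j, 1 ≤ j → j + 1 < n → P (A : Set (Fin m × Fin n)) (i + 1) j := by
        intro j h1 h2
        exact rule _ (by omega) (by omega) (hr (j - 1) (by omega)) (hr j (by omega))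
          (hr (j + 1) (by omega))
          (by omega) (by omega) (by omega) (by omega) (by omega) (by omega)
      intro j hj
      rcases Nat.eq_zero_or_pos j with rfl | hpos
      · exact rule _ (by omega) (by omega) (hr 0 (by omega)) (hr 1 (by omega))
          (mid 1 (by omega) (by omega))
          (by omega) (by omega) (by omega) (by omega) (by omega) (by omega)
      · by_cases hlast : j + 1 < n
        · exact mid j hpos hlast
        · have : j = n - 1 := by omega
          subst this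
          exact rule _ (by omega) (by omega) (hr (n - 1) (by omega)) (hr (n - 2) (by omega))
            (mid (n - 2) (by omega) (by omega))
            (by omega) (by omega) (by omega) (by omega) (by omega) (by omega)
  exact full_of_P _ rows

theorem lower_big (m n : ℕ) (hm : 3 ≤ m) (hn : 3 ≤ n) (A : Finset (Fin m × Fin n))
    (h : FullyInfects (kingGrid m n) 3 (A : Set _)) : 3 ≤ A.card := by
  by_contra hcon
  have hne : (A : Set (Fin m × Fin n)) ≠ Set.univ := by
    intro he
    rw [Finset.coe_eq_univ] at he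
    rw [he, Finset.card_univ, Fintype.card_prod, Fintype.card_fin, Fintype.card_fin] at hcon
    nlinarith
  obtain ⟨v, -, hv⟩ := exists_trigger _ _ hne h
  have h2 : {u | (kingGrid m n).Adj v u ∧ u ∈ (A : Set (Fin m × Fin n))}.ncard ≤
      (A : Set (Fin m × Fin n)).ncard := by
    apply Set.ncard_le_ncard _ (Set.toFinite _)
    rintro u ⟨-, hu⟩
    exact hu
  rw [Set.ncard_coe_finset] at h2
  omega

/-! ### one row -/

theorem ncard_le_two_of_injOn {m : ℕ} {α : Type*} [Finite α] (s : Set α) (f : α → Fin m)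
    (hf : Set.InjOn f s) (hm : m ≤ 2) : s.ncard ≤ 2 := by
  have h1 : (f '' s).ncard = s.ncard := hf.ncard_image
  have h2 : (f '' s).ncard ≤ (Set.univ : Set (Fin m)).ncard :=
    Set.ncard_le_ncard (Set.subset_univ _) (Set.toFinite _)
  rw [Set.ncard_univ, Nat.card_eq_fintype_card, Fintype.card_fin] at h2
  omega

theorem row_one (n : ℕ) (A : Finset (Fin 1 × Fin n))
    (h : FullyInfects (kingGrid 1 n) 3 (A : Set _)) : A = Finset.univ := by
  by_contra hne
  have hne' : (A : Set (Fin 1 × Fin n)) ≠ Set.univ := by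
    intro he
    exact hne (Finset.coe_eq_univ.1 he)
  obtain ⟨v, hvA, hv⟩ := exists_trigger _ _ hne' h
  have h2 : {u | (kingGrid 1 n).Adj v u ∧ u ∈ (A : Set _)}.ncard ≤ 2 := by
    apply ncard_le_two_of_injOn _ (fun u => if (u.2 : ℕ) < v.2 then (0 : Fin 2) else 1) _ le_rfl
    rintro ⟨a1, a2⟩ ⟨⟨ha, ha1, ha2⟩, _⟩ ⟨b1, b2⟩ ⟨⟨hb, hb1, hb2⟩, _⟩ hab
    have e1 : a1 = b1 := Subsingleton.elim _ _
    have ea : (a2 : ℕ) ≠ v.2 := by
      intro he
      apply ha
      exact Prod.ext (Subsingleton.elim _ _) (Fin.ext he.symm)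
    have eb : (b2 : ℕ) ≠ v.2 := by
      intro he
      apply hb
      exact Prod.ext (Subsingleton.elim _ _) (Fin.ext he.symm)
    have ha2' : |((v.2 : ℕ) : ℤ) - ((a2 : ℕ) : ℤ)| ≤ 1 := ha2
    have hb2' : |((v.2 : ℕ) : ℤ) - ((b2 : ℕ) : ℤ)| ≤ 1 := hb2
    rw [abs_le] at ha2' hb2'
    have e2 : (a2 : ℕ) = b2 := by
      dsimp only at hab
      split_ifs at hab with c1 c2 c2
      · omega
      · exact absurd hab (by decide)
      · exact absurd hab (by decide)
      · omega
    exact Prod.ext e1 (Fin.ext e2)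
  omega

theorem least_one (n : ℕ) : IsLeast (sizes 1 n) n := by
  constructor
  · refine ⟨Finset.univ, by simp, ?_⟩
    show (⋃ t, infected (kingGrid 1 n) 3 _ t) = Set.univ
    rw [Set.eq_univ_iff_forall]
    intro v
    exact Set.mem_iUnion.2 ⟨0, by simp [infected]⟩
  · rintro k ⟨A, hA, hF⟩
    rw [row_one n A hF] at hA
    simp at hA
    omega

/-! ### two rows -/

theorem upper_two (n : ℕ) (hn : 1 ≤ n) :
    ∃ A : Finset (Fin 2 × Fin n), A.card ≤ n / 2 + 2 ∧
      FullyInfects (kingGrid 2 n) 3 (A : Set (Fin 2 × Fin n)) := by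
  classical
  set B : Finset (Fin 2 × Fin n) :=
    (Finset.univ : Finset (Fin (n / 2))).image
      (fun i : Fin (n / 2) => ((0 : Fin 2), (⟨2 * (i : ℕ), by have := i.2; omega⟩ : Fin n)))
    with hB
  set A : Finset (Fin 2 × Fin n) :=
    insert ((1 : Fin 2), (⟨0, by omega⟩ : Fin n))
      (insert ((0 : Fin 2), (⟨n - 1, by omega⟩ : Fin n)) B) with hA
  refine ⟨A, ?_, ?_⟩
  · have h1 := Finset.card_insert_le ((1 : Fin 2), (⟨0, by omega⟩ : Fin n))
      (insert ((0 : Fin 2), (⟨n - 1, by omega⟩ : Fin n)) B)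
    have h2 := Finset.card_insert_le ((0 : Fin 2), (⟨n - 1, by omega⟩ : Fin n)) B
    have h3 : B.card ≤ n / 2 := by
      refine Finset.card_image_le.trans ?_
      simp
    rw [← hA] at h1
    omega
  · have h0n : 0 < n := by omega
    have hln : n - 1 < n := by omega
    have seedlast : P (A : Set (Fin 2 × Fin n)) 0 (n - 1) :=
      ⟨Nat.zero_lt_two, hln, seed_mem_fin _ _ _ (by simp [hA])⟩
    have seed1 : P (A : Set (Fin 2 × Fin n)) 1 0 :=
      ⟨Nat.one_lt_two, h0n, seed_mem_fin _ _ _ (by simp [hA])⟩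
    have seedeven : ∀ j, j < n → j % 2 = 0 → P (A : Set (Fin 2 × Fin n)) 0 j := by
      intro j hj hj2
      by_cases hl : j = n - 1
      · rw [hl]; exact seedlast
      · refine ⟨Nat.zero_lt_two, hj, seed_mem_fin _ _ _ ?_⟩
        rw [hA, Finset.mem_coe, Finset.mem_insert, Finset.mem_insert]
        refine Or.inr (Or.inr ?_)
        rw [hB, Finset.mem_image]
        refine ⟨⟨j / 2, by omega⟩, Finset.mem_univ _, ?_⟩
        refine Prod.ext rfl (Fin.ext ?_)
        show 2 * (j / 2) = j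
        omega
    have cols : ∀ j, j < n → P (A : Set (Fin 2 × Fin n)) 0 j ∧
        P (A : Set (Fin 2 × Fin n)) 1 j := by
      intro j
      induction j with
      | zero => intro _; exact ⟨seedeven 0 (by omega) rfl, seed1⟩
      | succ j ih =>
        intro hj
        obtain ⟨a0, a1⟩ := ih (by omega)
        have b0 : P (A : Set (Fin 2 × Fin n)) 0 (j + 1) := by
          by_cases hs : (j + 1) % 2 = 0 ∨ j + 1 = n - 1
          · rcases hs with hs | hs
            · exact seedeven _ hj hs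
            · rw [hs]; exact seedlast
          · exact rule _ (by omega) (by omega) a0 a1 (seedeven (j + 2) (by omega) (by omega))
              (by omega) (by omega) (by omega) (by omega) (by omega) (by omega)
        exact ⟨b0, rule _ (by omega) (by omega) a0 a1 b0
              (by omega) (by omega) (by omega) (by omega) (by omega) (by omega)⟩
    apply full_of_P (A : Set (Fin 2 × Fin n))
    intro i hi j hj
    obtain ⟨a0, a1⟩ := cols j hj
    rcases (show i = 0 ∨ i = 1 by omega) with rfl | rfl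
    · exact a0
    · exact a1

/-- the number of seeds in column `j` -/
def cnt {n : ℕ} (A : Finset (Fin 2 × Fin n)) (j : ℕ) : ℕ := (A.filter (fun p => (p.2 : ℕ) = j)).card

theorem cnt_pos_of {n : ℕ} (A : Finset (Fin 2 × Fin n)) (S : Set (Fin 2 × Fin n))
    (h : FullyInfects (kingGrid 2 n) 3 (A : Set _)) (hne : S.Nonempty)
    (hS : ∀ v ∈ S, ∃ c : ℕ, ∀ u, (kingGrid 2 n).Adj v u → u ∉ S → (u.2 : ℕ) = c) :
    ∃ v ∈ S, v ∈ A := by
  by_contra hcon
  push Not at hcon
  have := blocked (kingGrid 2 n) (A : Set _) S (fun v hv => by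
    rw [Finset.mem_coe]; exact hcon v hv) (fun v hv => by
      obtain ⟨c, hc⟩ := hS v hv
      apply ncard_le_two_of_injOn _ (fun u => u.1) _ le_rfl
      rintro ⟨a1, a2⟩ ⟨ha, ha'⟩ ⟨b1, b2⟩ ⟨hb, hb'⟩ hab
      have e1 := hc _ ha ha'
      have e2 := hc _ hb hb'
      have hab' : a1 = b1 := hab
      refine Prod.ext hab' (Fin.ext ?_)
      show (a2 : ℕ) = b2
      exact e1.trans e2.symm) h
  rw [this] at hne
  exact Set.not_nonempty_empty hne

theorem lower_two (n : ℕ) (hn : 1 ≤ n) (A : Finset (Fin 2 × Fin n))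
    (h : FullyInfects (kingGrid 2 n) 3 (A : Set _)) : n / 2 + 2 ≤ A.card := by
  classical
  have adj2 : ∀ {v u : Fin 2 × Fin n}, (kingGrid 2 n).Adj v u →
      (v.2 : ℕ) ≤ u.2 + 1 ∧ (u.2 : ℕ) ≤ v.2 + 1 := by
    intro v u huv
    have := huv.2.2
    rw [abs_le] at this
    omega
  -- columns 0 and n-1
  have pos_of_mem : ∀ (v : Fin 2 × Fin n), v ∈ A → 1 ≤ cnt A v.2 := by
    intro v hv
    apply Finset.card_pos.2
    exact ⟨v, Finset.mem_filter.2 ⟨hv, rfl⟩⟩
  have c0 : 1 ≤ cnt A 0 := by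
    obtain ⟨v, hv, hvA⟩ := cnt_pos_of A {v | (v.2 : ℕ) = 0} h
      ⟨(0, ⟨0, by omega⟩), rfl⟩ (by
        intro v hv
        refine ⟨1, fun u hu hu' => ?_⟩
        have := adj2 hu
        simp only [Set.mem_ofPred_eq] at hv hu'
        omega)
    have := pos_of_mem v hvA
    simp only [Set.mem_ofPred_eq] at hv
    rwa [hv] at this
  have clast : 1 ≤ cnt A (n - 1) := by
    obtain ⟨v, hv, hvA⟩ := cnt_pos_of A {v | (v.2 : ℕ) = n - 1} h
      ⟨(0, ⟨n - 1, by omega⟩), rfl⟩ (by
        intro v hv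
        refine ⟨n - 2, fun u hu hu' => ?_⟩
        have := adj2 hu
        have h3 := u.2.2
        simp only [Set.mem_ofPred_eq] at hv hu'
        omega)
    have := pos_of_mem v hvA
    simp only [Set.mem_ofPred_eq] at hv
    rwa [hv] at this
  have cpair : ∀ j, j + 1 < n → 1 ≤ cnt A j + cnt A (j + 1) := by
    intro j hj
    obtain ⟨v, hv, hvA⟩ := cnt_pos_of A {v | (v.2 : ℕ) = j ∨ (v.2 : ℕ) = j + 1} h
      ⟨(0, ⟨j, by omega⟩), Or.inl rfl⟩ (by
        intro v hv
        simp only [Set.mem_ofPred_eq] at hv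
        rcases hv with hv | hv
        · refine ⟨j - 1, fun u hu hu' => ?_⟩
          have := adj2 hu
          simp only [Set.mem_ofPred_eq] at hu'
          omega
        · refine ⟨j + 2, fun u hu hu' => ?_⟩
          have := adj2 hu
          simp only [Set.mem_ofPred_eq] at hu'
          omega)
    have := pos_of_mem v hvA
    simp only [Set.mem_ofPred_eq] at hv
    rcases hv with hv | hv
    · rw [hv] at this; omega
    · rw [hv] at this; omega
  have hsum : A.card = ∑ j ∈ Finset.range n, cnt A j := by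
    apply Finset.card_eq_sum_card_fiberwise
    intro p _
    simp
  -- prefix sums
  have hL : ∀ K, K ≤ n → K ≤ 2 * ∑ j ∈ Finset.range K, cnt A j := by
    intro K
    induction K using Nat.twoStepInduction with
    | zero => intro _; simp
    | one => intro _; simp; omega
    | more K ih1 _ =>
      intro hK
      have := ih1 (by omega)
      have h2 := cpair K (by omega)
      rw [Finset.sum_range_succ, Finset.sum_range_succ]
      omega
  have hR : ∀ d, d ≤ n → d + 2 * ∑ j ∈ Finset.range (n - d), cnt A j ≤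
      2 * ∑ j ∈ Finset.range n, cnt A j := by
    intro d
    induction d using Nat.twoStepInduction with
    | zero => intro _; simp
    | one =>
      intro _
      have e : n = (n - 1) + 1 := by omega
      have := Finset.sum_range_succ (cnt A) (n - 1)
      rw [← e] at this
      rw [this]
      omega
    | more d ih1 _ =>
      intro hd
      have := ih1 (by omega)
      have e : n - d = (n - (d + 2)) + 1 + 1 := by omega
      rw [e, Finset.sum_range_succ, Finset.sum_range_succ] at this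
      have h2 := cpair (n - (d + 2)) (by omega)
      omega
  by_cases hfull : (A : Set (Fin 2 × Fin n)) = Set.univ
  · rw [Finset.coe_eq_univ] at hfull
    rw [hfull, Finset.card_univ, Fintype.card_prod, Fintype.card_fin, Fintype.card_fin]
    omega
  · obtain ⟨v, -, hv⟩ := exists_trigger _ _ hfull h
    have hcov : {u | (kingGrid 2 n).Adj v u ∧ u ∈ (A : Set _)}.ncard ≤
        ((A.filter (fun p => (p.2 : ℕ) + 1 = v.2)) ∪ (A.filter (fun p => (p.2 : ℕ) = v.2)) ∪
          (A.filter (fun p => (p.2 : ℕ) = v.2 + 1))).card := by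
      rw [← Set.ncard_coe_finset]
      apply Set.ncard_le_ncard _ (Set.toFinite _)
      rintro u ⟨hu, huA⟩
      have := adj2 hu
      rw [Finset.mem_coe] at huA ⊢
      rw [Finset.mem_union, Finset.mem_union, Finset.mem_filter, Finset.mem_filter,
        Finset.mem_filter]
      rcases (show (u.2 : ℕ) + 1 = v.2 ∨ (u.2 : ℕ) = v.2 ∨ (u.2 : ℕ) = v.2 + 1 by omega) with
        h1 | h1 | h1
      · exact Or.inl (Or.inl ⟨huA, h1⟩)
      · exact Or.inl (Or.inr ⟨huA, h1⟩)
      · exact Or.inr ⟨huA, h1⟩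
    have hcov2 := (hv.trans hcov).trans (Finset.card_union_le _ _)
    have hcov3 := Finset.card_union_le (A.filter (fun p => (p.2 : ℕ) + 1 = v.2))
      (A.filter (fun p => (p.2 : ℕ) = v.2))
    have e2 : (A.filter (fun p => (p.2 : ℕ) = v.2)).card = cnt A v.2 := rfl
    have e3 : (A.filter (fun p => (p.2 : ℕ) = v.2 + 1)).card = cnt A (v.2 + 1) := rfl
    have hjn : (v.2 : ℕ) < n := v.2.2
    have cn : cnt A n = 0 := by
      apply Finset.card_eq_zero.2
      rw [Finset.filter_eq_empty_iff]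
      intro p _ hp
      have := p.2.2
      omega
    rw [hsum]
    rcases Nat.eq_zero_or_pos (v.2 : ℕ) with h0 | hpos
    · have e1 : (A.filter (fun p => (p.2 : ℕ) + 1 = v.2)).card = 0 := by
        apply Finset.card_eq_zero.2
        rw [Finset.filter_eq_empty_iff]
        intro p _ hp
        omega
      have h3 : 3 ≤ cnt A 0 + cnt A 1 := by
        rw [h0] at e1 e2 e3 hcov2 hcov3
        have e2' : (A.filter (fun p => (p.2 : ℕ) = 0)).card = cnt A 0 := rfl
        have e3' : (A.filter (fun p => (p.2 : ℕ) = 0 + 1)).card = cnt A 1 := rfl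
        omega
      rcases (show n = 1 ∨ 2 ≤ n by omega) with hn1 | hn2
      · subst hn1
        rw [Finset.sum_range_one]
        omega
      · have := hR (n - 2) (by omega)
        rw [show n - (n - 2) = 2 by omega, Finset.sum_range_succ, Finset.sum_range_one] at this
        omega
    · have e1 : (A.filter (fun p => (p.2 : ℕ) + 1 = v.2)).card = cnt A (v.2 - 1) := by
        show _ = (A.filter (fun p => (p.2 : ℕ) = v.2 - 1)).card
        congr 1
        apply Finset.filter_congr
        intro p _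
        omega
      obtain ⟨j, hj⟩ : ∃ j, (v.2 : ℕ) = j + 1 := ⟨v.2 - 1, by omega⟩
      rw [hj] at e1 e2 e3 hcov2 hcov3 hjn
      rw [hj] at hcov
      rw [Nat.add_sub_cancel] at e1
      have h3 : 3 ≤ cnt A j + cnt A (j + 1) + cnt A (j + 2) := by
        have e3' : (A.filter (fun p => (p.2 : ℕ) = j + 1 + 1)).card = cnt A (j + 2) := rfl
        omega
      have hl := hL j (by omega)
      rcases (show j + 2 = n ∨ j + 3 ≤ n by omega) with hn2 | hn3
      · have cn' : cnt A (j + 2) = 0 := by rw [hn2]; exact cn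
        have e : ∑ k ∈ Finset.range n, cnt A k =
            ∑ k ∈ Finset.range j, cnt A k + cnt A j + cnt A (j + 1) := by
          rw [← Finset.sum_range_succ, ← Finset.sum_range_succ]
          congr 2
          omega
        omega
      · have hr := hR (n - (j + 3)) (by omega)
        rw [show n - (n - (j + 3)) = j + 1 + 1 + 1 by omega, Finset.sum_range_succ,
          Finset.sum_range_succ, Finset.sum_range_succ] at hr
        omega

/-! ### assembling -/

theorem least_big (m n : ℕ) (hm : 3 ≤ m) (hn : 3 ≤ n) : IsLeast (sizes m n) 3 := by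
  constructor
  · obtain ⟨A, h1, h2⟩ := upper_big m n hm hn
    exact ⟨A, le_antisymm h1 (lower_big m n hm hn A h2), h2⟩
  · rintro k ⟨A, hA, hF⟩
    rw [← hA]
    exact lower_big m n hm hn A hF

theorem least_two (n : ℕ) (hn : 1 ≤ n) : IsLeast (sizes 2 n) (n / 2 + 2) := by
  constructor
  · obtain ⟨A, h1, h2⟩ := upper_two n hn
    exact ⟨A, le_antisymm h1 (lower_two n hn A h2), h2⟩
  · rintro k ⟨A, hA, hF⟩
    rw [← hA]
    exact lower_two n hn A hF

theorem least_all (m n : ℕ) (hm : 1 ≤ m) (hn : 1 ≤ n) :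
    IsLeast (sizes m n) (m3formula m n) := by
  unfold m3formula
  split_ifs with h1 h2
  · rcases (show m = 1 ∨ n = 1 by omega) with rfl | rfl
    · rw [show max 1 n = n by omega]; exact least_one n
    · rw [show max m 1 = m by omega, sizes_swap]; exact least_one m
  · rcases (show m = 2 ∨ n = 2 by omega) with rfl | rfl
    · rw [show max 2 n = n by omega]; exact least_two n hn
    · rw [show max m 2 = m by omega, sizes_swap]; exact least_two m hm
  · exact least_big m n (by omega) (by omega)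

end K9h78.King
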